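import Pool.Agent.Helper60.GUM.St

/-!
Project GUM (MP_0bd1d1_al), module CLF: Clifford theory.
-/

set_option autoImplicit false

namespace Pool.Agent.Helper30.GUM

open Module _root_.OG _root_.GUM

variable {k F X : Type*} [Field k] [Field F] [Algebra k F] [AddCommGroup X] [Module F X]
  {σ : F ≃ₐ[k] F} {B : HForm σ X} {R K : Type*} [Field K] [CommRing R] [Algebra R K]

private theorem eV_comm {Y : Submodule F X} {p p' : X} (h : HP B Y p p') (v : ↥(pp B Y p p'))
    (c : F) (g : X ≃ₗ[F] X) (hg : g ∈ Tg B p) : g * eV h v c = eV h v c * g := by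
  obtain ⟨d, _, hd⟩ := hg
  have hp := h.q1
  have hv := (_root_.GUM.mem_pp.1 v.2).2.1
  have hpv := B.swap0 hv
  have he : ∀ x, eV h v c x = x + B.f x p • v.1 - B.f x v.1 • p + (c * B.f x p) • p :=
    fun x => hE_apply B p v.1 c h.q1 (_root_.GUM.mem_pp.1 v.2).2.1 x
  have e1 : ∀ x, B.f (eV h v c x) p = B.f x p := by
    intro x
    rw [he, B.add, B.sub_l, B.add, B.smul, B.smul, B.smul, hv, hp]
    ring
  have e2 : eV h v c p = p := by
    rw [he, hp, hpv]
    simp
  refine LinearEquiv.ext fun x => ?_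
  have l1 : (g * eV h v c) x = g (eV h v c x) := rfl
  have l2 : (eV h v c * g) x = eV h v c (g x) := rfl
  rw [l1, l2, hd (eV h v c x), e1, hd x, map_add, map_smul, e2]

private theorem count [IsLocalRing R] {H : Set (X ≃ₗ[F] X)} {S : Set (Submodule F X)}
    {N : ℕ → Submodule R (Submodule F X → K)} (hN : Ch R H S N) (W : Submodule R (Submodule F X → K))
    {H₀ : Set (X ≃ₗ[F] X)} {B₀ : Set (Submodule F X)} {n : ℕ} (hB : Bd R K H₀ B₀ n) (hH : H₀ ⊆ H)
    (hSt : Stb H₀ B₀) (hW : ∀ g ∈ H₀, ∀ f : Submodule F X → K, f ∈ W → act g f ∈ W)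
    (hinj : ∀ f : Submodule F X → K, f ∈ W → f ∈ supS R K S → (∀ w ∈ B₀, f w = 0) → f = 0) (r : ℕ) :
    (steps (fun i => N i ⊓ W) r).card ≤ n := by
  refine steps_le_one _ (fun i => (N i ⊓ W).map (res R B₀)) n r ?_ (hB _ ?_ r)
  · intro i hA
    have hA' : (N i ⊓ W).map (res R B₀) = (N (i + 1) ⊓ W).map (res R B₀) := hA
    have hm : N i ⊓ W ≤ N (i + 1) ⊓ W := inf_le_inf_right _ (hN.mono (Nat.le_succ i))
    apply le_antisymm hm
    intro x hx
    have hx1 : res R B₀ x ∈ (N i ⊓ W).map (res R B₀) := by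
      rw [hA']
      exact Submodule.mem_map_of_mem hx
    obtain ⟨y, hy, hyx⟩ := (Submodule.mem_map).1 hx1
    have hxy : x - y ∈ N (i + 1) ⊓ W := Submodule.sub_mem _ hx (hm hy)
    have h0 : x - y = 0 := by
      apply hinj _ hxy.2 (hN.supp _ _ hxy.1)
      intro w hw
      have e1 := congrFun hyx w
      rw [res_mem _ hw, res_mem _ hw] at e1
      rw [Pi.sub_apply, e1, sub_self]
    rw [sub_eq_zero] at h0
    rw [h0]
    exact hy
  · refine ⟨?_, ?_, ?_, ?_⟩
    · intro i j hij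
      exact Submodule.map_mono (inf_le_inf_right _ (hN.mono hij))
    · intro i f hf w hw
      obtain ⟨y, hy, rfl⟩ := (Submodule.mem_map).1 hf
      exact res_not _ hw
    · intro i a ha f hf
      obtain ⟨y, hy, rfl⟩ := (Submodule.mem_map).1 hf
      rw [← map_smul]
      exact Submodule.mem_map_of_mem ⟨hN.red i a ha y hy.1, Submodule.smul_mem _ _ hy.2⟩
    · intro g hg i f hf
      obtain ⟨y, hy, rfl⟩ := (Submodule.mem_map).1 hf
      rw [act_res hSt hg]
      exact Submodule.mem_map_of_mem ⟨hN.stab g (hH hg) i y hy.1, hW g hg y hy.2⟩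

theorem hClf [IsLocalRing R] (_hG : StGrp B) (χ : AddChar F R) (hD : StDec R K B χ) : StClf R K B χ := by
  intro Y p p' h H S N hY hN heH T n h1 h2 r
  have main := steps_le (fun i => N i ⊓ IT R K B p) (fun (c : (_ : Fin 3) × X) i => N i ⊓ WU K h χ c.2)
    (Finset.univ.sigma T) (fun c => n c.1) r ?_ ?_
  · rw [Finset.sum_sigma] at main
    simpa using main
  · intro i hi
    have hm := hN.mono (Nat.le_succ i)
    apply le_antisymm (inf_le_inf_right _ hm)
    intro x hx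
    have hx1 := hD Y p p' h (N (i + 1) ⊓ IT R K B p) hY inf_le_right ?_ x hx
    · refine (iSup_le ?_ : (⨆ y : ↥(pp B Y p p'), (N (i + 1) ⊓ IT R K B p) ⊓ WU K h χ y.1)
        ≤ N i ⊓ IT R K B p) hx1
      intro y f hf
      refine ⟨?_, hf.1.2⟩
      rcases h2 y.1 y.2 with h3 | ⟨j, y₀, hy₀, g, hg, hg', hgf⟩
      · rw [h3 f hf.2 (hN.supp _ f hf.1.1)]
        exact zero_mem _
      · have h3 : act g⁻¹ f ∈ N (i + 1) ⊓ WU K h χ y₀ :=
          ⟨hN.stab _ hg' _ f hf.1.1, hgf f hf.2⟩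
        have h4 : N i ⊓ WU K h χ y₀ = N (i + 1) ⊓ WU K h χ y₀ :=
          hi ⟨j, y₀⟩ (by simpa using hy₀)
        rw [← h4] at h3
        have h5 := hN.stab g hg i _ h3.1
        rwa [act_act_inv] at h5
    · intro v c hc f hf
      refine ⟨hN.stab _ (heH v c hc) _ f hf.1, ?_⟩
      intro g hg
      rw [← act_mul, eV_comm h v c g hg, act_mul, hf.2 g hg]
  · rintro ⟨i, y⟩ hc
    rw [Finset.mem_sigma] at hc
    obtain ⟨H₀, B₀, hB, hH, hSt, hW, hinj⟩ := h1 i y hc.2
    exact count hN (WU K h χ y) hB hH hSt hW hinj r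

end Pool.Agent.Helper30.GUM
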